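import Pool.Agent.Helper72.SFM.Own

/-!
# SF, measure side 4: the contradiction
-/

set_option autoImplicit false

namespace SFM

open MeasureTheory SF

variable {X : Type} [MeasurableSpace X] {μ : Measure X}

theorem io_neg (p q : Lab) : io q p = - io p q := by
  unfold io
  by_cases h1 : p.tau = Tau.I ∧ q.tau = Tau.O
  · have h2 : ¬ (q.tau = Tau.I ∧ p.tau = Tau.O) := by
      rintro ⟨h, _⟩
      rw [h1.2] at h
      exact absurd h (by decide)
    have h3 : q.tau = Tau.O ∧ p.tau = Tau.I := ⟨h1.2, h1.1⟩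
    rw [if_neg h2, if_pos h3, if_pos h1]
  · by_cases h2 : q.tau = Tau.I ∧ p.tau = Tau.O
    · have h3 : p.tau = Tau.O ∧ q.tau = Tau.I := ⟨h2.2, h2.1⟩
      rw [if_pos h2, if_neg h1, if_pos h3]
      rfl
    · have h3 : ¬ (q.tau = Tau.O ∧ p.tau = Tau.I) := fun h => h1 ⟨h.2, h.1⟩
      have h4 : ¬ (p.tau = Tau.O ∧ q.tau = Tau.I) := fun h => h2 ⟨h.2, h.1⟩
      rw [if_neg h2, if_neg h3, if_neg h1, if_neg h4]
      rfl

theorem io_le (p q : Lab) : io p q ≤ 1 ∧ -1 ≤ io p q := by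
  unfold io
  split_ifs <;> decide

theorem io_one {p q : Lab} (h : io p q = 1) : p.tau = Tau.I ∧ q.tau = Tau.O := by
  unfold io at h
  by_contra hc
  rw [if_neg hc] at h
  split_ifs at h
  all_goals omega

/-- the height in the row of `v`, relative to `v` -/
noncomputable def hg (F : ℤ × ℤ → Lab) (v : ℤ × ℤ) (j : ℤ) : ℤ :=
  if 0 ≤ j then rel F v j.toNat else - rel F (v.1 + j, v.2) (-j).toNat

theorem rel_prev (F : ℤ × ℤ → Lab) (v : ℤ × ℤ) (n : ℕ) :
    rel F v (n + 1) = io (F v) (F (v.1 + 1, v.2)) + rel F (v.1 + 1, v.2) n := by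
  have h := rel_add F v 1 n
  rw [add_comm 1 n] at h
  rw [h]
  have h1 : rel F v 1 = io (F v) (F (v.1 + 1, v.2)) := by
    rw [rel_succ F v 0, rel_zero]
    simp
  rw [h1]
  simp

theorem hg_succ (F : ℤ × ℤ → Lab) (v : ℤ × ℤ) (j : ℤ) :
    hg F v (j + 1) = hg F v j + io (F (v.1 + j, v.2)) (F (v.1 + j + 1, v.2)) := by
  unfold hg
  by_cases h0 : 0 ≤ j
  · rw [if_pos h0, if_pos (by omega)]
    obtain ⟨n, rfl⟩ : ∃ n : ℕ, j = n := ⟨j.toNat, by omega⟩
    have e1 : ((n : ℤ) + 1).toNat = n + 1 := by omega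
    have e2 : ((n : ℤ)).toNat = n := by omega
    rw [e1, e2, rel_succ]
  · rw [if_neg h0]
    obtain ⟨n, rfl⟩ : ∃ n : ℕ, j = -(n : ℤ) - 1 := ⟨(-j - 1).toNat, by omega⟩
    have e1 : (-(-(n : ℤ) - 1)).toNat = n + 1 := by omega
    rw [e1, rel_prev]
    have e4 : v.1 + (-(n : ℤ) - 1) + 1 = v.1 - n := by ring
    simp only [e4]
    by_cases h1 : 0 ≤ -(n : ℤ) - 1 + 1
    · have hn : n = 0 := by omega
      subst hn
      rw [if_pos h1]
      simp [rel_zero]
    · rw [if_neg h1]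
      have e2 : (-(-(n : ℤ) - 1 + 1)).toNat = n := by omega
      rw [e2]
      have e3 : v.1 + (-(n : ℤ) - 1 + 1) = v.1 - n := by ring
      rw [e3]
      ring

theorem hg_zero (F : ℤ × ℤ → Lab) (v : ℤ × ℤ) : hg F v 0 = 0 := by
  simp [hg, rel_zero]

/-- `rel` in terms of the height -/
theorem rel_hg (F : ℤ × ℤ → Lab) (v : ℤ × ℤ) (j : ℤ) (n : ℕ) :
    rel F (v.1 + j, v.2) n = hg F v (j + n) - hg F v j := by
  induction n with
  | zero => simp [rel_zero]
  | succ n ih =>
    rw [rel_succ, ih]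
    have h := hg_succ F v (j + n)
    have e1 : j + ((n + 1 : ℕ) : ℤ) = j + n + 1 := by push_cast; ring
    have e2 : v.1 + j + (n : ℤ) = v.1 + (j + n) := by ring
    rw [e1, h]
    simp only [e2]
    ring

/-- `rel` of the mirror image in terms of the height -/
theorem rel_mir (F : ℤ × ℤ → Lab) (v : ℤ × ℤ) (j : ℤ) (n : ℕ) :
    rel (SF.mir F) (-(v.1 + j), v.2) n = hg F v (j - n) - hg F v j := by
  induction n with
  | zero => simp [rel_zero]
  | succ n ih =>
    rw [rel_succ, ih]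
    have h := hg_succ F v (j - n - 1)
    have e1 : j - ((n + 1 : ℕ) : ℤ) = j - n - 1 := by push_cast; ring
    have e2 : j - (n : ℤ) - 1 + 1 = j - n := by ring
    rw [e2] at h
    rw [e1]
    have e3 : io (SF.mir F (-(v.1 + j) + (n : ℤ), v.2)) (SF.mir F (-(v.1 + j) + (n : ℤ) + 1, v.2)) =
        - io (F (v.1 + (j - n - 1), v.2)) (F (v.1 + (j - n - 1) + 1, v.2)) := by
      rw [← io_neg]
      have e4 : -(-(v.1 + j) + (n : ℤ)) = v.1 + (j - n - 1) + 1 := by ring
      have e5 : -(-(v.1 + j) + (n : ℤ) + 1) = v.1 + (j - n - 1) := by ring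
      simp only [SF.mir, e4, e5]
      rfl
    rw [e3]
    linarith

/-- the cell has the largest height in its row -/
def Top (F : ℤ × ℤ → Lab) (v : ℤ × ℤ) : Prop :=
  (∀ n, rel F v n ≤ 0) ∧ ∀ n, rel (SF.mir F) (-v.1, v.2) n ≤ 0

theorem top_iff (F : ℤ × ℤ → Lab) (v : ℤ × ℤ) (j : ℤ) :
    Top F (v.1 + j, v.2) ↔ ∀ i, hg F v i ≤ hg F v j := by
  constructor
  · rintro ⟨h1, h2⟩ i
    rcases le_total j i with h | h
    · obtain ⟨n, rfl⟩ : ∃ n : ℕ, i = j + n := ⟨(i - j).toNat, by omega⟩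
      have := h1 n
      rw [rel_hg] at this
      linarith
    · obtain ⟨n, rfl⟩ : ∃ n : ℕ, i = j - n := ⟨(j - i).toNat, by omega⟩
      have := h2 n
      simp only at this
      rw [rel_mir] at this
      linarith
  · intro h
    refine ⟨fun n => ?_, fun n => ?_⟩
    · rw [rel_hg]
      linarith [h (j + n)]
    · simp only
      rw [rel_mir]
      linarith [h (j - n)]

/-- discrete intermediate value: the first place to the right with a larger height -/
theorem first_right {f : ℤ → ℤ} (hf : ∀ j, f (j + 1) ≤ f j + 1) {a k : ℤ} (h0 : f a ≤ k)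
    (h1 : ∃ n : ℕ, k < f (a + n)) : ∃ w : ℕ, (∀ i : ℕ, i ≤ w → f (a + i) ≤ k) ∧
      f (a + w) = k ∧ f (a + w + 1) = k + 1 := by
  classical
  set n := Nat.find h1 with hn
  have hn1 : k < f (a + n) := Nat.find_spec h1
  have hn0 : n ≠ 0 := by
    intro h
    rw [h] at hn1
    simp only [Nat.cast_zero, add_zero] at hn1
    omega
  obtain ⟨w, hw⟩ : ∃ w, n = w + 1 := ⟨n - 1, by omega⟩
  have h2 : ∀ i : ℕ, i ≤ w → f (a + i) ≤ k := by
    intro i hi
    by_contra hc
    push Not at hc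
    exact Nat.find_min h1 (show i < Nat.find h1 by omega) hc
  have h3 := hf (a + w)
  rw [hw] at hn1
  push_cast at hn1
  rw [← add_assoc] at hn1
  have h4 := h2 w le_rfl
  exact ⟨w, h2, by omega, by omega⟩

/-- the last place to the left with a larger height -/
theorem first_left {f : ℤ → ℤ} (hf : ∀ j, f j - 1 ≤ f (j + 1)) {a k : ℤ} (h0 : f a ≤ k)
    (h1 : ∃ n : ℕ, k < f (a - n)) : ∃ w : ℕ, (∀ i : ℕ, i ≤ w → f (a - i) ≤ k) ∧
      f (a - w) = k ∧ f (a - w - 1) = k + 1 := by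
  have h2 : ∀ j, (fun j => f (-j)) (j + 1) ≤ (fun j => f (-j)) j + 1 := by
    intro j
    have := hf (-j - 1)
    simp only
    rw [show -j - 1 + 1 = -j by ring] at this
    rw [show -(j + 1) = -j - 1 by ring]
    linarith
  obtain ⟨w, h3, h4, h5⟩ := first_right (f := fun j => f (-j)) h2 (a := -a) (k := k)
    (by simpa using h0) (by
      obtain ⟨n, hn⟩ := h1
      refine ⟨n, ?_⟩
      rwa [show -(-a + (n : ℤ)) = a - n by ring])
  refine ⟨w, fun i hi => ?_, ?_, ?_⟩
  · have := h3 i hi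
    rwa [show -(-a + (i : ℤ)) = a - i by ring] at this
  · rwa [show -(-a + (w : ℤ)) = a - w by ring] at h4
  · rwa [show -(-a + (w : ℤ) + 1) = a - w - 1 by ring] at h5

/-- the properties of almost every labelling -/
structure AE (F : ℤ × ℤ → Lab) : Prop where
  rule : ∀ v, Rule F v
  fin1 : ∀ v l, FR F v l → Fin1 F v
  noIR : ∀ v, ¬ IR F v
  noIR' : ∀ v, ¬ IR (SF.mir F) v
  fin : ∀ v : ℤ × ℤ,
      Set.Finite {p : Σ l : ℕ, Fin (l + 1) | FR F (v.1 - ((p.2 : ℕ) : ℤ), v.2) p.1}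

variable {F : ℤ × ℤ → Lab}

theorem hg_lip (F : ℤ × ℤ → Lab) (v : ℤ × ℤ) (j : ℤ) :
    hg F v (j + 1) ≤ hg F v j + 1 ∧ hg F v j - 1 ≤ hg F v (j + 1) := by
  have h := hg_succ F v j
  have h2 := io_le (F (v.1 + j, v.2)) (F (v.1 + j + 1, v.2))
  omega

/-- a step down is a left wall -/
theorem LW_of_hg {v : ℤ × ℤ} {j : ℤ} (h : hg F v (j - 1) = hg F v j + 1) :
    LW F (v.1 + j, v.2) := by
  have h1 := hg_succ F v (j - 1)
  rw [show j - 1 + 1 = j by ring, show v.1 + (j - 1) + 1 = v.1 + j by ring] at h1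
  have h2 : io (F (v.1 + (j - 1), v.2)) (F (v.1 + j, v.2)) = -1 := by omega
  have h3 := io_neg (F (v.1 + (j - 1), v.2)) (F (v.1 + j, v.2))
  rw [h2] at h3
  have h4 := io_one h3
  refine ⟨h4.1, ?_⟩
  simp only
  rw [show v.1 + j - 1 = v.1 + (j - 1) by ring]
  exact h4.2

/-- a step up is a right wall, seen in the mirror -/
theorem LW_mir_of_hg {v : ℤ × ℤ} {j : ℤ} (h : hg F v (j + 1) = hg F v j + 1) :
    LW (SF.mir F) (-(v.1 + j), v.2) := by
  have h1 := hg_succ F v j
  have h2 : io (F (v.1 + j, v.2)) (F (v.1 + j + 1, v.2)) = 1 := by omega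
  have h4 := io_one h2
  refine ⟨?_, ?_⟩
  · simp only [SF.mir, neg_neg]
    exact h4.1
  · simp only [SF.mir]
    rw [show -(-(v.1 + j) - 1) = v.1 + j + 1 by ring]
    exact h4.2

/-- both sides of the run of level `k` are finite as soon as one of them is -/
theorem run_of (hA : AE F) (v : ℤ × ℤ) (k : ℤ) (hk : 0 ≤ k)
    (h : (∃ n : ℕ, k < hg F v (0 + n)) ∨ ∃ n : ℕ, k < hg F v (0 - n)) :
    ∃ (i w : ℕ), hg F v (-(i : ℤ)) = k ∧ FR F (v.1 - (i : ℤ), v.2) (w + i) := by
  have hl1 : ∀ j, hg F v (j + 1) ≤ hg F v j + 1 := fun j => (hg_lip F v j).1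
  have hl2 : ∀ j, hg F v j - 1 ≤ hg F v (j + 1) := fun j => (hg_lip F v j).2
  have h00 : hg F v 0 ≤ k := by rw [hg_zero]; exact hk
  have hR : (∃ n : ℕ, k < hg F v (0 + n)) → (∃ n : ℕ, k < hg F v (0 - n)) := by
    intro h1
    by_contra hc
    push Not at hc
    obtain ⟨w, h2, h3, h4⟩ := first_right hl1 h00 h1
    refine hA.noIR' (-(v.1 + (0 + w)), v.2) ⟨LW_mir_of_hg (by rw [h4, h3]), fun n => ?_⟩
    rw [rel_mir, h3]
    rcases le_total n w with hn | hn
    · have := h2 (w - n) (by omega)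
      have e1 : (0 : ℤ) + ((w - n : ℕ) : ℤ) = 0 + w - n := by
        rw [Nat.cast_sub hn]; ring
      rw [e1] at this
      linarith
    · have := hc (n - w)
      have e1 : (0 : ℤ) - ((n - w : ℕ) : ℤ) = 0 + w - n := by
        rw [Nat.cast_sub hn]; ring
      rw [e1] at this
      linarith
  have hL : (∃ n : ℕ, k < hg F v (0 - n)) → (∃ n : ℕ, k < hg F v (0 + n)) := by
    intro h1
    by_contra hc
    push Not at hc
    obtain ⟨w, h2, h3, h4⟩ := first_left hl2 h00 h1
    refine hA.noIR (v.1 + (0 - w), v.2) ⟨LW_of_hg (by rw [h4, h3]), fun n => ?_⟩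
    rw [rel_hg, h3]
    rcases le_total n w with hn | hn
    · have := h2 (w - n) (by omega)
      have e1 : (0 : ℤ) - ((w - n : ℕ) : ℤ) = 0 - w + n := by
        rw [Nat.cast_sub hn]; ring
      rw [e1] at this
      linarith
    · have := hc (n - w)
      have e1 : (0 : ℤ) + ((n - w : ℕ) : ℤ) = 0 - w + n := by
        rw [Nat.cast_sub hn]; ring
      rw [e1] at this
      linarith
  have hb : (∃ n : ℕ, k < hg F v (0 + n)) ∧ ∃ n : ℕ, k < hg F v (0 - n) := by
    rcases h with h | h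
    · exact ⟨h, hR h⟩
    · exact ⟨hL h, h⟩
  obtain ⟨w, h2, h3, h4⟩ := first_right hl1 h00 hb.1
  obtain ⟨i, g2, g3, g4⟩ := first_left hl2 h00 hb.2
  refine ⟨i, w, by rw [← g3]; congr 1; ring, ?_⟩
  have e0 : v.1 - (i : ℤ) = v.1 + (0 - i) := by ring
  rw [e0]
  refine ⟨LW_of_hg (by rw [g4, g3]), ?_, ?_⟩
  · intro n hn
    rw [rel_hg, g3]
    rcases le_total n i with hni | hni
    · have := g2 (i - n) (by omega)
      have e1 : (0 : ℤ) - ((i - n : ℕ) : ℤ) = 0 - i + n := by
        rw [Nat.cast_sub hni]; ring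
      rw [e1] at this
      linarith
    · have := h2 (n - i) (by omega)
      have e1 : (0 : ℤ) + ((n - i : ℕ) : ℤ) = 0 - i + n := by
        rw [Nat.cast_sub hni]; ring
      rw [e1] at this
      linarith
  · rw [rel_hg, g3]
    have e1 : (0 : ℤ) - i + ((w + i + 1 : ℕ) : ℤ) = 0 + w + 1 := by
      push_cast; ring
    rw [e1, h4]
    ring

/-- the heights of a row are bounded -/
theorem bounded (hA : AE F) (v : ℤ × ℤ) : ∃ K, ∀ j, hg F v j ≤ K := by
  by_contra hc
  push Not at hc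
  have hrun : ∀ k : ℕ, ∃ (i w : ℕ), hg F v (-(i : ℤ)) = k ∧
      FR F (v.1 - (i : ℤ), v.2) (w + i) := by
    intro k
    refine run_of hA v k (by omega) ?_
    obtain ⟨j, hj⟩ := hc k
    rcases le_total 0 j with h | h
    · left
      exact ⟨j.toNat, by rwa [show (0 : ℤ) + (j.toNat : ℤ) = j by omega]⟩
    · right
      exact ⟨(-j).toNat, by rwa [show (0 : ℤ) - ((-j).toNat : ℤ) = j by omega]⟩
  choose i w h1 h2 using hrun
  have hinj : Function.Injective (fun k : ℕ => (⟨w k + i k, ⟨i k, by omega⟩⟩ :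
      Σ l : ℕ, Fin (l + 1))) := by
    intro k k' hkk
    have h3 : i k = i k' := by
      have h4 := congrArg (fun p : Σ l : ℕ, Fin (l + 1) => (p.2 : ℕ)) hkk
      exact h4
    have h5 := h1 k
    rw [h3, h1 k'] at h5
    exact_mod_cast h5.symm
  refine Set.infinite_range_of_injective hinj ((hA.fin v).subset ?_)
  rintro p ⟨k, rfl⟩
  exact h2 k

theorem exists_top (hA : AE F) (v : ℤ × ℤ) : ∃ j : ℤ, Top F (v.1 + j, v.2) := by
  classical
  obtain ⟨K, hK⟩ := bounded hA v
  -- the largest value is attained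
  have h1 : ∃ m : ℕ, ∃ j, hg F v j = K - m := ⟨(K - hg F v 0).toNat, 0, by
    have := hK 0
    omega⟩
  obtain ⟨j, hj⟩ := Nat.find_spec h1
  refine ⟨j, (top_iff F v j).2 fun i => ?_⟩
  by_contra hc
  push Not at hc
  have h2 := hK i
  refine Nat.find_min h1 (m := (K - hg F v i).toNat) ?_ ⟨i, by omega⟩
  omega

/-- the parity is constant on the cells with the largest height -/
theorem top_parity (hA : AE F) (v : ℤ × ℤ) (n : ℕ) : ∀ j : ℤ, Top F (v.1 + j, v.2) →
    Top F (v.1 + (j + n), v.2) → qq F (v.1 + j, v.2) = qq F (v.1 + (j + n), v.2) := by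
  induction n using Nat.strong_induction_on with
  | _ n ih =>
  intro j h1 h2
  rcases Nat.eq_zero_or_pos n with rfl | hn
  · simp
  rw [top_iff] at h1 h2
  have heq : hg F v j = hg F v (j + n) := le_antisymm (h2 j) (h1 _)
  by_cases hmid : ∃ m : ℕ, 0 < m ∧ m < n ∧ hg F v (j + m) = hg F v j
  · obtain ⟨m, hm0, hm1, hm2⟩ := hmid
    have h3 : Top F (v.1 + (j + m), v.2) := by
      rw [top_iff]
      intro i
      rw [hm2]
      exact h1 i
    have h4 := ih m hm1 j ((top_iff F v j).2 h1) h3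
    have h5 := ih (n - m) (by omega) (j + m) h3 (by
      rw [show j + (m : ℤ) + ((n - m : ℕ) : ℤ) = j + n by
        rw [Nat.cast_sub hm1.le]; ring]
      exact (top_iff F v _).2 h2)
    rw [h4, h5, show j + (m : ℤ) + ((n - m : ℕ) : ℤ) = j + n by
        rw [Nat.cast_sub hm1.le]; ring]
  · push Not at hmid
    by_cases hn1 : n = 1
    · subst hn1
      have h3 := hg_succ F v j
      have e1 : j + ((1 : ℕ) : ℤ) = j + 1 := by push_cast; ring
      rw [e1] at heq ⊢
      have h4 : io (F (v.1 + j, v.2)) (F (v.1 + j + 1, v.2)) = 0 := by omega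
      have h5 := parity_adj hA.rule (v := (v.1 + j, v.2)) h4
      rw [h5]
      congr 1
      refine Prod.ext ?_ rfl
      simp only
      ring
    · -- a finite run between
      have hlow : ∀ m : ℕ, 0 < m → m < n → hg F v (j + m) ≤ hg F v j - 1 := by
        intro m hm0 hm1
        have h3 := h1 (j + m)
        have h4 := hmid m hm0 hm1
        omega
      have h3 : hg F v (j + 1) = hg F v j - 1 := by
        have h4 := hlow 1 (by omega) (by omega)
        push_cast at h4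
        have h5 := (hg_lip F v j).2
        omega
      have hrun : FR F (v.1 + (j + 1), v.2) (n - 2) := by
        refine ⟨LW_of_hg ?_, ?_, ?_⟩
        · rw [h3, show j + 1 - 1 = j by ring]
          ring
        · intro i hi
          rw [rel_hg, h3]
          have h4 := hlow (i + 1) (by omega) (by omega)
          have e1 : j + ((i + 1 : ℕ) : ℤ) = j + 1 + i := by push_cast; ring
          rw [e1] at h4
          linarith
        · rw [rel_hg, h3]
          have e1 : j + 1 + ((n - 2 + 1 : ℕ) : ℤ) = j + n := by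
            have : 2 ≤ n := by omega
            push_cast [Nat.cast_sub this]
            ring
          rw [e1, ← heq]
          ring
      have h4 := parity hA.rule hrun (hA.fin1 _ _ hrun)
      simp only at h4
      have e1 : v.1 + (j + 1) - 1 = v.1 + j := by ring
      have e2 : v.1 + (j + 1) + ((n - 2 : ℕ) : ℤ) + 1 = v.1 + (j + n) := by
        have : 2 ≤ n := by omega
        rw [Nat.cast_sub this]
        push_cast
        ring
      rw [e1, e2] at h4
      exact h4

theorem top_parity' (hA : AE F) (v : ℤ × ℤ) {j k : ℤ} (hj : Top F (v.1 + j, v.2))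
    (hk : Top F (v.1 + k, v.2)) : qq F (v.1 + j, v.2) = qq F (v.1 + k, v.2) := by
  rcases le_total j k with h | h
  · obtain ⟨n, rfl⟩ : ∃ n : ℕ, k = j + n := ⟨(k - j).toNat, by omega⟩
    exact top_parity hA v n j hj hk
  · obtain ⟨n, rfl⟩ : ∃ n : ℕ, j = k + n := ⟨(j - k).toNat, by omega⟩
    exact (top_parity hA v n k hk hj).symm

/-! ### the sets -/

theorem mir_sF (g : ℤ × ℤ) (F : ℤ × ℤ → Lab) :
    SF.mir (sF g F) = sF (-g.1, g.2) (SF.mir F) := by
  funext p
  have h1 : ((-p.1, p.2) : ℤ × ℤ) + g = (-(p + ((-g.1, g.2) : ℤ × ℤ)).1,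
      (p + ((-g.1, g.2) : ℤ × ℤ)).2) := by
    refine Prod.ext ?_ ?_
    · simp only [Prod.fst_add]
      ring
    · simp
  simp only [SF.mir, sF, h1]

theorem Top_sF (g : ℤ × ℤ) (F : ℤ × ℤ → Lab) (v : ℤ × ℤ) :
    Top (sF g F) v ↔ Top F (v + g) := by
  unfold Top
  rw [mir_sF]
  simp only [rel_sF]
  have h1 : ((-v.1, v.2) : ℤ × ℤ) + (-g.1, g.2) = (-(v + g).1, (v + g).2) := by
    refine Prod.ext ?_ ?_
    · simp only [Prod.fst_add]
      ring
    · simp
  rw [h1]

theorem m_mir : Measurable SF.mir := by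
  refine measurable_pi_iff.2 fun p => ?_
  exact m_fn (fun l => ({ l with g := l.g', g' := l.g } : Lab)) (-p.1, p.2)

theorem m_Top (v : ℤ × ℤ) : Measurable fun F : ℤ × ℤ → Lab => Top F v :=
  (Measurable.forall fun n => m_relp v n (· ≤ 0)).and
    (Measurable.forall fun n => (m_relp (-v.1, v.2) n (· ≤ 0)).comp m_mir)

/-- the labellings with a top cell of parity `c` in the row of the origin -/
def Bt (c : Bool) (F : ℤ × ℤ → Lab) : Prop := ∃ j : ℤ, Top F (j, 0) ∧ qq F (j, 0) = c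

theorem m_Bt (c : Bool) : Measurable (Bt c) := by
  unfold Bt
  refine Measurable.exists fun j => (m_Top _).and ?_
  exact m_fn (fun l => xor l.b (decide ((((j, 0) : ℤ × ℤ).1 + ((j, 0) : ℤ × ℤ).2) % 2 = 0)) = c) _

theorem qq_sF (k : ℤ) (F : ℤ × ℤ → Lab) (j : ℤ) :
    qq (sF (k, 0) F) (j, 0) = xor (qq F (j + k, 0)) (decide (k % 2 ≠ 0)) := by
  unfold qq sF
  have h1 : ((j, 0) : ℤ × ℤ) + (k, 0) = (j + k, 0) := by simp
  rw [h1]
  simp only [add_zero]
  rcases Int.emod_two_eq_zero_or_one j with hj | hj <;>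
  rcases Int.emod_two_eq_zero_or_one k with hk | hk <;>
  simp [hj, hk, Int.add_emod]

theorem Bt_sF (k : ℤ) (c : Bool) (F : ℤ × ℤ → Lab) :
    Bt c (sF (k, 0) F) ↔ Bt (xor c (decide (k % 2 ≠ 0))) F := by
  unfold Bt
  constructor
  · rintro ⟨j, h1, h2⟩
    refine ⟨j + k, ?_, ?_⟩
    · rw [Top_sF] at h1
      simpa using h1
    · rw [qq_sF] at h2
      rw [← h2]
      cases qq F (j + k, 0) <;> cases decide (k % 2 ≠ 0) <;> rfl
  · rintro ⟨j, h1, h2⟩
    refine ⟨j - k, ?_, ?_⟩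
    · rw [Top_sF]
      simpa using h1
    · rw [qq_sF, sub_add_cancel, h2]
      cases c <;> cases decide (k % 2 ≠ 0) <;> rfl

theorem ae_AE {Y : Sy μ} [IsProbabilityMeasure μ] {G : Set X} (hG : Good Y G) (h0 : μ Gᶜ = 0) :
    ∀ᵐ x ∂μ, AE (Y.FF x) := by
  filter_upwards [ae_rule h0, ae_fin1 hG h0, ae_noIR hG h0, ae_noIR' hG h0, ae_finite hG h0]
    with x h1 h2 h3 h4 h5
  exact ⟨hG.rule x h1, h2, h3, h4, h5⟩

/-- No measurable labelling satisfies the rules almost everywhere if the double shift is ergodic. -/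
theorem no_measure (μ : Measure X) [IsProbabilityMeasure μ] (Y : Sy μ)
    (herg : Ergodic (Y.T (2, 0)) μ) : ¬ ∀ᵐ x ∂μ, ∀ v : ℤ × ℤ, Rule (Y.FF x) v := by
  intro hr
  obtain ⟨G, hG, h0⟩ := exists_good Y hr
  have hAE := ae_AE hG h0
  set A : Bool → Set X := fun c => {x | Bt c (Y.FF x)} with hA
  have hm : ∀ c, MeasurableSet (A c) := fun c => measurableSet_setOfPred.2 ((m_Bt c).comp Y.mFF)
  have hcov : ∀ᵐ x ∂μ, x ∈ A true ∪ A false := by
    filter_upwards [hAE] with x hx
    obtain ⟨j, hj⟩ := exists_top hx 0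
    simp only [Prod.fst_zero, Prod.snd_zero, zero_add] at hj
    cases hq : qq (Y.FF x) (j, 0)
    · exact Or.inr ⟨j, hj, hq⟩
    · exact Or.inl ⟨j, hj, hq⟩
  have hdis : ∀ᵐ x ∂μ, x ∉ A true ∩ A false := by
    filter_upwards [hAE] with x hx
    rintro ⟨⟨j, h1, h2⟩, ⟨k, h3, h4⟩⟩
    have h5 := top_parity' hx 0 (j := j) (k := k) (by simpa using h1) (by simpa using h3)
    simp only [Prod.fst_zero, Prod.snd_zero, zero_add] at h5
    rw [h2, h4] at h5
    exact absurd h5 (by decide)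
  have h1 : Y.T (1, 0) ⁻¹' A true = A false := by
    ext x
    simp only [Set.mem_preimage, hA, Set.mem_ofPred_eq]
    rw [Y.FF_T, Bt_sF]
    simp
  have h2 : Y.T (2, 0) ⁻¹' A true = A true := by
    ext x
    simp only [Set.mem_preimage, hA, Set.mem_ofPred_eq]
    rw [Y.FF_T, Bt_sF]
    simp
  have h3 : μ (A false) = μ (A true) := by
    rw [← h1, (Y.mp (1, 0)).measure_preimage (hm true).nullMeasurableSet]
  have h4 : μ (A true ∩ A false) = 0 := measure_eq_zero_iff_ae_notMem.2 hdis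
  rcases herg.toPreErgodic.measure_self_or_compl_eq_zero (hm true) h2 with h5 | h5
  · have h6 : μ (A true ∪ A false) = 0 := measure_union_null h5 (h3.trans h5)
    have h7 : μ (A true ∪ A false)ᶜ = 0 := hcov
    have h8 : μ (Set.univ : Set X) = 0 := by
      rw [← Set.union_compl_self (A true ∪ A false)]
      exact measure_union_null h6 h7
    rw [measure_univ] at h8
    exact absurd h8 (by simp)
  · have h6 : μ (A false) ≤ 0 := by
      calc μ (A false) ≤ μ ((A true)ᶜ ∪ (A true ∩ A false)) := by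
            refine measure_mono fun x hx => ?_
            by_cases hx' : x ∈ A true
            · exact Or.inr ⟨hx', hx⟩
            · exact Or.inl hx'
        _ ≤ μ (A true)ᶜ + μ (A true ∩ A false) := measure_union_le _ _
        _ = 0 := by rw [h5, h4, add_zero]
    have h7 : μ (A true) = 0 := by
      rw [← h3]
      exact le_antisymm h6 bot_le
    have h8 := prob_add_prob_compl (μ := μ) (hm true)
    rw [h7, h5] at h8
    exact absurd h8 (by simp)

end SFM
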