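import Pool.Agent.Helper20.SF.RowThm

/-!
# SF, measure side 1: systems, shifts, measurability, the tick lemma
-/

set_option autoImplicit false

namespace SFM

open MeasureTheory SF

instance : MeasurableSpace Lab := ⊤

instance : DiscreteMeasurableSpace Lab := ⟨fun _ => trivial⟩

instance : Finite Lab := by
  refine Finite.of_injective
    (fun l : Lab => (l.tau, l.b, l.g, l.g', l.ph, l.ck)) fun a c h => ?_
  cases a
  cases c
  simp only [Prod.mk.injEq] at h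
  simp [h]

/-- a measure preserving action of `ℤ²` with a labelling -/
structure Sy {X : Type} [MeasurableSpace X] (μ : Measure X) where
  T : ℤ × ℤ → X → X
  zero : ∀ x, T 0 x = x
  add : ∀ g h x, T (g + h) x = T g (T h x)
  mp : ∀ g, MeasurePreserving (T g) μ μ
  φ : X → Lab
  hφ : ∀ s, MeasurableSet {x | φ x = s}

/-- the shift of a labelling -/
def sF (g : ℤ × ℤ) (F : ℤ × ℤ → Lab) : ℤ × ℤ → Lab := fun v => F (v + g)

variable {X : Type} [MeasurableSpace X] {μ : Measure X}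

/-- the labelling of the orbit -/
def Sy.FF (Y : Sy μ) (x : X) : ℤ × ℤ → Lab := fun v => Y.φ (Y.T v x)

theorem Sy.FF_T (Y : Sy μ) (g : ℤ × ℤ) (x : X) : Y.FF (Y.T g x) = sF g (Y.FF x) := by
  funext v
  simp only [Sy.FF, sF]
  rw [← Y.add]

theorem Sy.neg (Y : Sy μ) (g : ℤ × ℤ) (x : X) : Y.T (-g) (Y.T g x) = x := by
  rw [← Y.add, neg_add_cancel, Y.zero]

theorem Sy.neg' (Y : Sy μ) (g : ℤ × ℤ) (x : X) : Y.T g (Y.T (-g) x) = x := by
  rw [← Y.add, add_neg_cancel, Y.zero]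

theorem Sy.mφ (Y : Sy μ) : Measurable Y.φ := by
  refine measurable_to_countable' fun s => ?_
  exact Y.hφ s

theorem Sy.mFF (Y : Sy μ) : Measurable Y.FF :=
  measurable_pi_iff.2 fun v => Y.mφ.comp (Y.mp v).measurable

/-! ### shifts -/

theorem LW_sF (g : ℤ × ℤ) (F : ℤ × ℤ → Lab) (v : ℤ × ℤ) : LW (sF g F) v ↔ LW F (v + g) := by
  have h1 : ((v.1 - 1, v.2) : ℤ × ℤ) + g = ((v + g).1 - 1, (v + g).2) := by
    refine Prod.ext ?_ ?_ <;> simp <;> ring
  simp only [LW, sF, h1]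

theorem rel_sF (g : ℤ × ℤ) (F : ℤ × ℤ → Lab) (v : ℤ × ℤ) (i : ℕ) :
    rel (sF g F) v i = rel F (v + g) i := by
  unfold rel
  refine Finset.sum_congr rfl fun j _ => ?_
  have h1 : ((v.1 + j, v.2) : ℤ × ℤ) + g = ((v + g).1 + j, (v + g).2) := by
    refine Prod.ext ?_ ?_ <;> simp <;> ring
  have h2 : ((v.1 + j + 1, v.2) : ℤ × ℤ) + g = ((v + g).1 + j + 1, (v + g).2) := by
    refine Prod.ext ?_ ?_ <;> simp <;> ring
  simp only [sF, h1, h2]

theorem FR_sF (g : ℤ × ℤ) (F : ℤ × ℤ → Lab) (v : ℤ × ℤ) (l : ℕ) :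
    FR (sF g F) v l ↔ FR F (v + g) l := by
  simp only [FR, LW_sF, rel_sF]

theorem IR_sF (g : ℤ × ℤ) (F : ℤ × ℤ → Lab) (v : ℤ × ℤ) :
    IR (sF g F) v ↔ IR F (v + g) := by
  simp only [IR, LW_sF, rel_sF]

theorem IC_sF (g : ℤ × ℤ) (F : ℤ × ℤ → Lab) (v : ℤ × ℤ) (l : ℕ) :
    IC (sF g F) v l ↔ IC F (v + g) l := by
  simp only [IC, IR_sF, rel_sF]

theorem DD_sF (g : ℤ × ℤ) (F : ℤ × ℤ → Lab) (v : ℤ × ℤ) (l : ℕ) :
    DD (sF g F) v l = DD F (v + g) l := by
  unfold DD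
  refine Finset.sum_congr rfl fun j _ => ?_
  have h1 : ((v.1 + j, v.2) : ℤ × ℤ) + g = ((v + g).1 + j, (v + g).2) := by
    refine Prod.ext ?_ ?_ <;> simp <;> ring
  have h2 : ((v.1 + j + 1, v.2) : ℤ × ℤ) + g = ((v + g).1 + j + 1, (v + g).2) := by
    refine Prod.ext ?_ ?_ <;> simp <;> ring
  simp only [rel_sF]
  simp only [sF, h1, h2]

theorem own_sF (g : ℤ × ℤ) (F : ℤ × ℤ → Lab) (v : ℤ × ℤ) (l : ℕ) :
    own (sF g F) v l = own F (v + g) l := by
  simp only [own, rel_sF]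

theorem Dn_sF (g : ℤ × ℤ) (F : ℤ × ℤ → Lab) (u v : ℤ × ℤ) :
    Dn (sF g F) u v ↔ Dn F (u + g) (v + g) := by
  simp only [Dn, LW_sF]
  refine and_congr_right fun _ => and_congr_right fun _ => ?_
  have e1 : (v + g).1 = v.1 + g.1 := rfl
  have e2 : (v + g).2 = v.2 + g.2 := rfl
  have e3 : (u + g).1 = u.1 + g.1 := rfl
  have e4 : (u + g).2 = u.2 + g.2 := rfl
  rw [e1, e2, e3, e4]
  constructor
  · rintro ⟨h1, h2⟩
    exact ⟨by omega, by omega⟩
  · rintro ⟨h1, h2⟩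
    exact ⟨by omega, by omega⟩

theorem UpF_sF (g : ℤ × ℤ) (F : ℤ × ℤ → Lab) (n : ℕ) (v : ℤ × ℤ) :
    UpF (sF g F) n v ↔ UpF F n (v + g) := by
  induction n generalizing v with
  | zero =>
    simp only [UpF, LW_sF, Dn_sF]
    refine and_congr_right fun _ => not_congr ?_
    constructor
    · rintro ⟨u, h⟩
      exact ⟨_, h⟩
    · rintro ⟨u, h⟩
      exact ⟨u - g, by simpa using h⟩
  | succ n ih =>
    simp only [UpF, Dn_sF, ih]
    constructor
    · rintro ⟨u, h⟩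
      exact ⟨_, h⟩
    · rintro ⟨u, h⟩
      exact ⟨u - g, by simpa using h⟩

theorem DnF_sF (g : ℤ × ℤ) (F : ℤ × ℤ → Lab) (n : ℕ) (v : ℤ × ℤ) :
    DnF (sF g F) n v ↔ DnF F n (v + g) := by
  induction n generalizing v with
  | zero =>
    simp only [DnF, LW_sF, Dn_sF]
    refine and_congr_right fun _ => not_congr ?_
    constructor
    · rintro ⟨u, h⟩
      exact ⟨_, h⟩
    · rintro ⟨u, h⟩
      exact ⟨u - g, by simpa using h⟩
  | succ n ih =>
    simp only [DnF, Dn_sF, ih]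
    constructor
    · rintro ⟨u, h⟩
      exact ⟨_, h⟩
    · rintro ⟨u, h⟩
      exact ⟨u - g, by simpa using h⟩

theorem Fin1_sF (g : ℤ × ℤ) (F : ℤ × ℤ → Lab) (v : ℤ × ℤ) :
    Fin1 (sF g F) v ↔ Fin1 F (v + g) := by
  simp only [Fin1, UpF_sF, DnF_sF, sF]

/-! ### measurability -/

theorem m_at (p : ℤ × ℤ) : Measurable fun F : ℤ × ℤ → Lab => F p := measurable_pi_apply p

theorem m_fn {α : Type} [MeasurableSpace α] (f : Lab → α) (p : ℤ × ℤ) :
    Measurable fun F : ℤ × ℤ → Lab => f (F p) :=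
  (Measurable.of_discrete (f := f)).comp (m_at p)

theorem m_fn2 {α : Type} [MeasurableSpace α] (f : Lab → Lab → α) (p q : ℤ × ℤ) :
    Measurable fun F : ℤ × ℤ → Lab => f (F p) (F q) :=
  (Measurable.of_discrete (f := fun r : Lab × Lab => f r.1 r.2)).comp ((m_at p).prodMk (m_at q))

theorem m_LW (v : ℤ × ℤ) : Measurable fun F : ℤ × ℤ → Lab => LW F v :=
  m_fn2 (fun a c => a.tau = Tau.I ∧ c.tau = Tau.O) _ _

theorem m_rel (v : ℤ × ℤ) (i : ℕ) : Measurable fun F : ℤ × ℤ → Lab => rel F v i :=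
  Finset.measurable_sum _ fun _ _ => m_fn2 _ _ _

theorem m_relp (v : ℤ × ℤ) (i : ℕ) (P : ℤ → Prop) :
    Measurable fun F : ℤ × ℤ → Lab => P (rel F v i) :=
  (Measurable.of_discrete (f := P)).comp (m_rel v i)

theorem m_FR (v : ℤ × ℤ) (l : ℕ) : Measurable fun F : ℤ × ℤ → Lab => FR F v l :=
  (m_LW v).and ((Measurable.forall fun i => Measurable.forall fun _ => m_relp v i (· ≤ 0)).and
    (m_relp v _ (· = 1)))

theorem m_IR (v : ℤ × ℤ) : Measurable fun F : ℤ × ℤ → Lab => IR F v :=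
  (m_LW v).and (Measurable.forall fun i => m_relp v i (· ≤ 0))

theorem m_IC (v : ℤ × ℤ) (l : ℕ) : Measurable fun F : ℤ × ℤ → Lab => IC F v l :=
  (m_IR v).and ((m_relp v l (· = 0)).and
    (Measurable.forall fun i => Measurable.forall fun _ => m_relp v i (· ≤ -1)))

theorem m_DD (v : ℤ × ℤ) (l : ℕ) : Measurable fun F : ℤ × ℤ → Lab => DD F v l := by
  refine Finset.measurable_sum _ fun i _ => ?_
  refine Measurable.ite ?_ (m_fn2 (fun a c => dl (a.g - c.g)) _ _) measurable_const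
  exact measurableSet_setOfPred.2 ((m_relp v i (· = 0)).and (m_relp v (i + 1) (· = 0)))

theorem m_Dn (u v : ℤ × ℤ) : Measurable fun F : ℤ × ℤ → Lab => Dn F u v :=
  (m_LW u).and ((m_LW v).and measurable_const)

theorem m_UpF (n : ℕ) (v : ℤ × ℤ) : Measurable fun F : ℤ × ℤ → Lab => UpF F n v := by
  induction n generalizing v with
  | zero => exact (m_LW v).and (Measurable.not (Measurable.exists fun u => m_Dn u v))
  | succ n ih => exact Measurable.exists fun u => (m_Dn u v).and (ih u)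

theorem m_DnF (n : ℕ) (v : ℤ × ℤ) : Measurable fun F : ℤ × ℤ → Lab => DnF F n v := by
  induction n generalizing v with
  | zero => exact (m_LW v).and (Measurable.not (Measurable.exists fun u => m_Dn v u))
  | succ n ih => exact Measurable.exists fun u => (m_Dn v u).and (ih u)

/-! ### the tick lemma -/

theorem Sy.img (Y : Sy μ) (g : ℤ × ℤ) (A : Set X) : Y.T g '' A = Y.T (-g) ⁻¹' A := by
  ext x
  constructor
  · rintro ⟨y, hy, rfl⟩
    simpa [Y.neg] using hy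
  · intro hx
    exact ⟨_, hx, Y.neg' g x⟩

theorem Sy.img_meas (Y : Sy μ) (g : ℤ × ℤ) {A : Set X} (hA : MeasurableSet A) :
    MeasurableSet (Y.T g '' A) := by
  rw [Y.img]
  exact (Y.mp _).measurable hA

theorem Sy.img_mu (Y : Sy μ) (g : ℤ × ℤ) {A : Set X} (hA : MeasurableSet A) :
    μ (Y.T g '' A) = μ A := by
  rw [Y.img]
  exact (Y.mp _).measure_preimage hA.nullMeasurableSet

/-- a partial injection of the orbits preserves the measure -/
theorem Sy.le_of_inj (Y : Sy μ) {S S' : Set X} (hS : MeasurableSet S) (σ : X → ℤ × ℤ)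
    (hσ : ∀ g, MeasurableSet {x | σ x = g}) (hmap : ∀ x ∈ S, Y.T (σ x) x ∈ S')
    (hinj : ∀ x ∈ S, ∀ y ∈ S, Y.T (σ x) x = Y.T (σ y) y → x = y) : μ S ≤ μ S' := by
  classical
  have h1 : S = ⋃ g, S ∩ {x | σ x = g} := by
    ext x
    simp
  have hm : ∀ g, MeasurableSet (S ∩ {x | σ x = g}) := fun g => hS.inter (hσ g)
  have h2 : μ S = ∑' g, μ (S ∩ {x | σ x = g}) := by
    conv_lhs => rw [h1]
    refine measure_iUnion ?_ hm
    intro g g' hg
    refine Set.disjoint_left.2 ?_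
    rintro x ⟨_, hx⟩ ⟨_, hx'⟩
    exact hg (hx.symm.trans hx')
  have h3 : ∑' g, μ (S ∩ {x | σ x = g}) = ∑' g, μ (Y.T g '' (S ∩ {x | σ x = g})) := by
    refine tsum_congr fun g => ?_
    rw [Y.img_mu g (hm g)]
  have h4 : μ (⋃ g, Y.T g '' (S ∩ {x | σ x = g})) = ∑' g, μ (Y.T g '' (S ∩ {x | σ x = g})) := by
    refine measure_iUnion ?_ fun g => Y.img_meas g (hm g)
    intro g g' hg
    refine Set.disjoint_left.2 ?_
    rintro z ⟨x, ⟨hx, hxg⟩, rfl⟩ ⟨y, ⟨hy, hyg⟩, hz⟩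
    have hxg' : σ x = g := hxg
    have hyg' : σ y = g' := hyg
    have := hinj x hx y hy (by rw [hxg', hyg', hz])
    subst this
    exact hg (hxg'.symm.trans hyg')
  rw [h2, h3, ← h4]
  refine measure_mono ?_
  refine Set.iUnion_subset fun g => ?_
  rintro z ⟨x, ⟨hx, hxg⟩, rfl⟩
  have hxg' : σ x = g := hxg
  have := hmap x hx
  rwa [hxg'] at this

/-- The tick lemma. -/
theorem Sy.null_tick (Y : Sy μ) [IsFiniteMeasure μ] {S : Set X} (hS : MeasurableSet S)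
    (σ : X → ℤ × ℤ) (hσ : ∀ g, MeasurableSet {x | σ x = g}) (hmap : ∀ x ∈ S, Y.T (σ x) x ∈ S)
    (hinj : ∀ x ∈ S, ∀ y ∈ S, Y.T (σ x) x = Y.T (σ y) y → x = y) (ψ : X → ℤ)
    (hψ : ∀ k, MeasurableSet {x | ψ x = k})
    (hs : ∀ x ∈ S, ψ (Y.T (σ x) x) = ψ x + 1) : μ S = 0 := by
  have hm : ∀ k, MeasurableSet (S ∩ {x | ψ x = k}) := fun k => hS.inter (hψ k)
  have hle : ∀ k, μ (S ∩ {x | ψ x = k}) ≤ μ (S ∩ {x | ψ x = k + 1}) := by
    intro k
    refine Y.le_of_inj (hm k) σ hσ ?_ fun x hx y hy => hinj x hx.1 y hy.1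
    rintro x ⟨hx, hk⟩
    have hk' : ψ x = k := hk
    exact ⟨hmap x hx, by simp [hs x hx, hk']⟩
  have hle' : ∀ (k : ℤ) (n : ℕ), μ (S ∩ {x | ψ x = k}) ≤ μ (S ∩ {x | ψ x = k + n}) := by
    intro k n
    induction n with
    | zero => simp
    | succ n ih =>
      refine ih.trans ((hle _).trans (le_of_eq ?_))
      congr 2
      push_cast
      rw [add_assoc]
  have hzero : ∀ k, μ (S ∩ {x | ψ x = k}) = 0 := by
    intro k
    by_contra h0
    have h1 : ∑' n : ℕ, μ (S ∩ {x | ψ x = k + n}) ≤ μ Set.univ := by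
      rw [← measure_iUnion]
      · exact measure_mono (Set.subset_univ _)
      · intro n m hnm
        refine Set.disjoint_left.2 ?_
        rintro x ⟨_, hx⟩ ⟨_, hx'⟩
        have h2 : ψ x = k + n := hx
        have h3 : ψ x = k + m := hx'
        exact hnm (by omega)
      · exact fun n => hm _
    have h2 : ∑' _ : ℕ, μ (S ∩ {x | ψ x = k}) ≤ μ Set.univ :=
      (ENNReal.tsum_le_tsum fun n => hle' k n).trans h1
    rw [ENNReal.tsum_const_eq_top_of_ne_zero h0] at h2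
    exact absurd h2 (not_le.2 (measure_lt_top μ _))
  have hU : S = ⋃ k : ℤ, S ∩ {x | ψ x = k} := by
    ext x
    simp
  rw [hU]
  exact measure_iUnion_null hzero

end SFM
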