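import Pool.Agent.Helper72.SFM.Base

/-!
# SF, measure side 2: infinite chains and infinite runs are null
-/

set_option autoImplicit false

namespace SFM

open MeasureTheory SF

variable {X : Type} [MeasurableSpace X] {μ : Measure X}

/-- the good set -/
structure Good (Y : Sy μ) (G : Set X) : Prop where
  meas : MeasurableSet G
  inv : ∀ g x, x ∈ G → Y.T g x ∈ G
  rule : ∀ x ∈ G, ∀ v, Rule (Y.FF x) v

theorem exists_good (Y : Sy μ) (h : ∀ᵐ x ∂μ, ∀ v, Rule (Y.FF x) v) :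
    ∃ G, Good Y G ∧ μ Gᶜ = 0 := by
  obtain ⟨N, hN, hNm, hN0⟩ := exists_measurable_superset_of_null (ae_iff.1 h)
  refine ⟨⋂ g, Y.T g ⁻¹' Nᶜ, ⟨?_, ?_, ?_⟩, ?_⟩
  · exact MeasurableSet.iInter fun g => (Y.mp g).measurable hNm.compl
  · intro g x hx
    simp only [Set.mem_iInter, Set.mem_preimage] at hx ⊢
    intro g'
    rw [← Y.add]
    exact hx _
  · intro x hx
    simp only [Set.mem_iInter, Set.mem_preimage] at hx
    have h0 := hx 0
    rw [Y.zero] at h0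
    by_contra hc
    exact h0 (hN hc)
  · rw [Set.compl_iInter]
    refine measure_iUnion_null fun g => ?_
    rw [← Set.preimage_compl, compl_compl, (Y.mp g).measure_preimage hNm.nullMeasurableSet, hN0]

/-- the upper neighbour of the origin -/
noncomputable def up (F : ℤ × ℤ → Lab) : ℤ × ℤ := by
  classical
  exact if Dn F (0, 1) 0 then (0, 1) else if Dn F (1, 1) 0 then (1, 1) else (-1, 1)

/-- the lower neighbour of the origin -/
noncomputable def dn (F : ℤ × ℤ → Lab) : ℤ × ℤ := by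
  classical
  exact if Dn F 0 (0, -1) then (0, -1) else if Dn F 0 (1, -1) then (1, -1) else (-1, -1)

theorem m_up : Measurable up := by
  classical
  unfold up
  refine Measurable.ite (measurableSet_setOfPred.2 (m_Dn _ _)) measurable_const ?_
  exact Measurable.ite (measurableSet_setOfPred.2 (m_Dn _ _)) measurable_const measurable_const

theorem m_dn : Measurable dn := by
  classical
  unfold dn
  refine Measurable.ite (measurableSet_setOfPred.2 (m_Dn _ _)) measurable_const ?_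
  exact Measurable.ite (measurableSet_setOfPred.2 (m_Dn _ _)) measurable_const measurable_const

theorem up_eq {F : ℤ × ℤ → Lab} (hF : ∀ v, Rule F v) {u : ℤ × ℤ} (h : Dn F u 0) : up F = u := by
  classical
  unfold up
  by_cases h1 : Dn F (0, 1) 0
  · rw [if_pos h1]
    exact dn_inj hF h1 h
  rw [if_neg h1]
  by_cases h2 : Dn F (1, 1) 0
  · rw [if_pos h2]
    exact dn_inj hF h2 h
  rw [if_neg h2]
  obtain ⟨u1, u2⟩ := u
  have h3 := h.2.2
  simp only [Prod.fst_zero, Prod.snd_zero] at h3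
  obtain ⟨h4, h5⟩ := h3
  have h6 : u2 = 1 := by omega
  subst h6
  rcases h5 with h5 | h5 | h5
  · subst h5
    exact absurd h h1
  · have : u1 = 1 := by omega
    subst this
    exact absurd h h2
  · have : u1 = -1 := by omega
    subst this
    rfl

theorem dn_eq {F : ℤ × ℤ → Lab} (hF : ∀ v, Rule F v) {v : ℤ × ℤ} (h : Dn F 0 v) : dn F = v := by
  classical
  unfold dn
  by_cases h1 : Dn F 0 (0, -1)
  · rw [if_pos h1]
    exact dn_fun hF h1 h
  rw [if_neg h1]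
  by_cases h2 : Dn F 0 (1, -1)
  · rw [if_pos h2]
    exact dn_fun hF h2 h
  rw [if_neg h2]
  obtain ⟨u1, u2⟩ := v
  have h3 := h.2.2
  simp only [Prod.fst_zero, Prod.snd_zero] at h3
  obtain ⟨h4, h5⟩ := h3
  have h6 : u2 = -1 := by omega
  subst h6
  rcases h5 with h5 | h5 | h5
  · subst h5
    exact absurd h h1
  · have : u1 = -1 := by omega
    subst this
    rfl
  · have : u1 = 1 := by omega
    subst this
    exact absurd h h2

/-- a class of runs -/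
structure Cls (R : (ℤ × ℤ → Lab) → ℤ × ℤ → ℕ → Prop) (P : (ℤ × ℤ → Lab) → ℤ × ℤ → Prop) :
    Prop where
  mR : ∀ v l, Measurable fun F => R F v l
  sR : ∀ g F v l, R (sF g F) v l ↔ R F (v + g) l
  fR : ∀ F v l l', R F v l → R F v l' → l = l'
  mP : ∀ v, Measurable fun F => P F v
  sP : ∀ g F v, P (sF g F) v ↔ P F (v + g)

/-- the value at the origin -/
noncomputable def val (R : (ℤ × ℤ → Lab) → ℤ × ℤ → ℕ → Prop) (s : ℤ) (F : ℤ × ℤ → Lab) : ℤ := by
  classical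
  exact if h : ∃ l, R F 0 l then 64 * DD F 0 h.choose + s * ((F 0).ck.val : ℤ) else 0

theorem val_eq {R : (ℤ × ℤ → Lab) → ℤ × ℤ → ℕ → Prop}
    (fR : ∀ F v l l', R F v l → R F v l' → l = l') (s : ℤ) {F : ℤ × ℤ → Lab} {l : ℕ}
    (h : R F 0 l) : val R s F = 64 * DD F 0 l + s * ((F 0).ck.val : ℤ) := by
  have h' : ∃ l, R F 0 l := ⟨l, h⟩
  unfold val
  rw [dif_pos h', fR F 0 _ _ h'.choose_spec h]

theorem m_val {R : (ℤ × ℤ → Lab) → ℤ × ℤ → ℕ → Prop} {P : (ℤ × ℤ → Lab) → ℤ × ℤ → Prop}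
    (hc : Cls R P) (s : ℤ) : Measurable (val R s) := by
  refine measurable_to_countable' fun k => ?_
  have h1 : val R s ⁻¹' {k} = {F | (∃ l, R F 0 l ∧ 64 * DD F 0 l + s * ((F 0).ck.val : ℤ) = k) ∨
      ((¬ ∃ l, R F 0 l) ∧ k = 0)} := by
    ext F
    simp only [Set.mem_preimage, Set.mem_singleton_iff, Set.mem_ofPred_eq]
    constructor
    · intro h
      by_cases h' : ∃ l, R F 0 l
      · obtain ⟨l, hl⟩ := h'
        exact Or.inl ⟨l, hl, by rw [← val_eq hc.fR s hl, h]⟩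
      · refine Or.inr ⟨h', ?_⟩
        unfold val at h
        rw [dif_neg h'] at h
        exact h.symm
    · rintro (⟨l, hl, h⟩ | ⟨h', h⟩)
      · rw [val_eq hc.fR s hl, h]
      · unfold val
        rw [dif_neg h', h]
  rw [h1]
  refine measurableSet_setOfPred.2 ?_
  refine Measurable.or (Measurable.exists fun l => (hc.mR 0 l).and ?_)
    ((Measurable.not (Measurable.exists fun l => hc.mR 0 l)).and measurable_const)
  have h2 : Measurable fun F : ℤ × ℤ → Lab => 64 * DD F 0 l + s * ((F 0).ck.val : ℤ) :=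
    ((m_DD 0 l).const_mul 64).add ((m_fn (fun a => ((a.ck.val : ℕ) : ℤ)) 0).const_mul s)
  exact (Measurable.of_discrete (f := fun z : ℤ => z = k)).comp h2

/-- the set of the points with a run of the class -/
def SS (Y : Sy μ) (G : Set X) (R : (ℤ × ℤ → Lab) → ℤ × ℤ → ℕ → Prop)
    (P : (ℤ × ℤ → Lab) → ℤ × ℤ → Prop) (ph : Bool) : Set X :=
  {x | x ∈ G ∧ (∃ l, R (Y.FF x) 0 l) ∧ (Y.FF x 0).ph = ph ∧ P (Y.FF x) 0}

theorem m_SS {Y : Sy μ} {G : Set X} (hG : Good Y G)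
    {R : (ℤ × ℤ → Lab) → ℤ × ℤ → ℕ → Prop} {P : (ℤ × ℤ → Lab) → ℤ × ℤ → Prop}
    (hc : Cls R P) (ph : Bool) : MeasurableSet (SS Y G R P ph) := by
  refine MeasurableSet.inter hG.meas ?_
  refine measurableSet_setOfPred.2 ?_
  have h1 : Measurable fun F : ℤ × ℤ → Lab => (∃ l, R F 0 l) ∧ (F 0).ph = ph ∧ P F 0 :=
    (Measurable.exists fun l => hc.mR 0 l).and ((m_fn (fun a => a.ph = ph) 0).and (hc.mP 0))
  exact h1.comp Y.mFF

theorem m_comp (Y : Sy μ) {α : Type} [MeasurableSpace α] [MeasurableSingletonClass α]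
    {f : (ℤ × ℤ → Lab) → α} (hf : Measurable f) (k : α) : MeasurableSet {x | f (Y.FF x) = k} :=
  (hf.comp Y.mFF) (measurableSet_singleton k)

theorem zmod_step (c c' : ZMod 64) (h : c' = c + 1) :
    (c' = 0 ∧ c.val = 63 ∧ c'.val = 0) ∨ (c' ≠ 0 ∧ c'.val = c.val + 1) := by
  subst h
  revert c
  decide

theorem null_up {Y : Sy μ} [IsFiniteMeasure μ] {G : Set X} (hG : Good Y G)
    {R : (ℤ × ℤ → Lab) → ℤ × ℤ → ℕ → Prop} {P : (ℤ × ℤ → Lab) → ℤ × ℤ → Prop}
    (hc : Cls R P)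
    (hstep : ∀ F, (∀ v, Rule F v) → ∀ v l', R F v l' → (F v).ph = false → P F v →
      ∃ u l, Dn F u v ∧ R F u l ∧ DD F v l' = DD F u l - inc (F v) ∧ P F u) :
    μ (SS Y G R P false) = 0 := by
  have key : ∀ x ∈ SS Y G R P false, ∃ l' l, R (Y.FF x) 0 l' ∧ Dn (Y.FF x) (up (Y.FF x)) 0 ∧
      R (Y.FF x) (up (Y.FF x)) l ∧
      DD (Y.FF x) 0 l' = DD (Y.FF x) (up (Y.FF x)) l - inc (Y.FF x 0) ∧
      P (Y.FF x) (up (Y.FF x)) := by
    rintro x ⟨hx, ⟨l', hl'⟩, hph, hP⟩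
    have hF := hG.rule x hx
    obtain ⟨u, l, h1, h2, h3, h4⟩ := hstep _ hF 0 l' hl' hph hP
    have hu := up_eq hF h1
    rw [hu]
    exact ⟨l', l, hl', h1, h2, h3, h4⟩
  refine Y.null_tick (m_SS hG hc false) (fun x => up (Y.FF x)) (m_comp Y m_up) ?_ ?_
    (fun x => val R (-1) (Y.FF x)) (m_comp Y (m_val hc (-1))) ?_
  · intro x hx
    obtain ⟨l', l, h0, h1, h2, h3, h4⟩ := key x hx
    refine ⟨hG.inv _ _ hx.1, ⟨l, ?_⟩, ?_, ?_⟩
    · rw [Y.FF_T, hc.sR, zero_add]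
      exact h2
    · rw [Y.FF_T]
      simp only [sF, zero_add]
      have ht := dn_tick (hG.rule x hx.1) h1
      by_contra hne
      have hne' : (Y.FF x (up (Y.FF x))).ph = true := by
        cases hh : (Y.FF x (up (Y.FF x))).ph
        · exact absurd hh hne
        · rfl
      have := ht.2 hne'
      rw [hx.2.2.1] at this
      exact absurd this (by decide)
    · rw [Y.FF_T, hc.sP, zero_add]
      exact h4
  · intro x hx y hy hxy
    obtain ⟨_, _, _, h1, _⟩ := key x hx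
    obtain ⟨_, _, _, h2, _⟩ := key y hy
    set u := up (Y.FF x) with hu
    set u' := up (Y.FF y) with hu'
    have e1 : Dn (Y.FF (Y.T u x)) 0 (-u) := by
      rw [Y.FF_T, Dn_sF]
      simpa using h1
    have e2 : Dn (Y.FF (Y.T u x)) 0 (-u') := by
      rw [hxy, Y.FF_T, Dn_sF]
      simpa using h2
    have e3 := dn_fun (hG.rule _ (hG.inv _ _ hx.1)) e1 e2
    have e4 : u = u' := neg_injective e3
    rw [← Y.neg u x, hxy, e4, Y.neg]
  · intro x hx
    obtain ⟨l', l, h0, h1, h2, h3, h4⟩ := key x hx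
    have ht := dn_tick (hG.rule x hx.1) h1
    have e1 : R (Y.FF (Y.T (up (Y.FF x)) x)) 0 l := by
      rw [Y.FF_T, hc.sR, zero_add]
      exact h2
    rw [val_eq hc.fR _ e1, val_eq hc.fR _ h0, Y.FF_T, DD_sF, zero_add, h3]
    simp only [sF, zero_add]
    have hph : (Y.FF x 0).ph = false := hx.2.2.1
    rcases zmod_step _ _ ht.1 with ⟨h5, h6, h7⟩ | ⟨h5, h6⟩
    · unfold inc
      rw [if_pos h5, hph, h6, h7]
      simp only [Bool.false_eq_true, if_false]
      push_cast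
      ring
    · unfold inc
      rw [if_neg h5, h6]
      push_cast
      ring

theorem null_dn {Y : Sy μ} [IsFiniteMeasure μ] {G : Set X} (hG : Good Y G)
    {R : (ℤ × ℤ → Lab) → ℤ × ℤ → ℕ → Prop} {P : (ℤ × ℤ → Lab) → ℤ × ℤ → Prop}
    (hc : Cls R P)
    (hstep : ∀ F, (∀ v, Rule F v) → ∀ u l, R F u l → (F u).ph = true → P F u →
      ∃ v l', Dn F u v ∧ R F v l' ∧ DD F v l' = DD F u l - inc (F v) ∧ P F v) :
    μ (SS Y G R P true) = 0 := by
  have key : ∀ x ∈ SS Y G R P true, ∃ l' l, R (Y.FF x) 0 l' ∧ Dn (Y.FF x) 0 (dn (Y.FF x)) ∧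
      R (Y.FF x) (dn (Y.FF x)) l ∧
      DD (Y.FF x) (dn (Y.FF x)) l = DD (Y.FF x) 0 l' - inc (Y.FF x (dn (Y.FF x))) ∧
      P (Y.FF x) (dn (Y.FF x)) := by
    rintro x ⟨hx, ⟨l', hl'⟩, hph, hP⟩
    have hF := hG.rule x hx
    obtain ⟨u, l, h1, h2, h3, h4⟩ := hstep _ hF 0 l' hl' hph hP
    have hu := dn_eq hF h1
    rw [hu]
    exact ⟨l', l, hl', h1, h2, h3, h4⟩
  refine Y.null_tick (m_SS hG hc true) (fun x => dn (Y.FF x)) (m_comp Y m_dn) ?_ ?_
    (fun x => val R 1 (Y.FF x)) (m_comp Y (m_val hc 1)) ?_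
  · intro x hx
    obtain ⟨l', l, h0, h1, h2, h3, h4⟩ := key x hx
    refine ⟨hG.inv _ _ hx.1, ⟨l, ?_⟩, ?_, ?_⟩
    · rw [Y.FF_T, hc.sR, zero_add]
      exact h2
    · rw [Y.FF_T]
      simp only [sF, zero_add]
      exact (dn_tick (hG.rule x hx.1) h1).2 hx.2.2.1
    · rw [Y.FF_T, hc.sP, zero_add]
      exact h4
  · intro x hx y hy hxy
    obtain ⟨_, _, _, h1, _⟩ := key x hx
    obtain ⟨_, _, _, h2, _⟩ := key y hy
    set u := dn (Y.FF x) with hu
    set u' := dn (Y.FF y) with hu'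
    have e1 : Dn (Y.FF (Y.T u x)) (-u) 0 := by
      rw [Y.FF_T, Dn_sF]
      simpa using h1
    have e2 : Dn (Y.FF (Y.T u x)) (-u') 0 := by
      rw [hxy, Y.FF_T, Dn_sF]
      simpa using h2
    have e3 := dn_inj (hG.rule _ (hG.inv _ _ hx.1)) e1 e2
    have e4 : u = u' := neg_injective e3
    rw [← Y.neg u x, hxy, e4, Y.neg]
  · intro x hx
    obtain ⟨l', l, h0, h1, h2, h3, h4⟩ := key x hx
    have ht := dn_tick (hG.rule x hx.1) h1
    have e1 : R (Y.FF (Y.T (dn (Y.FF x)) x)) 0 l := by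
      rw [Y.FF_T, hc.sR, zero_add]
      exact h2
    rw [val_eq hc.fR _ e1, val_eq hc.fR _ h0, Y.FF_T, DD_sF, zero_add, h3]
    simp only [sF, zero_add]
    have hph : (Y.FF x (dn (Y.FF x))).ph = true := ht.2 hx.2.2.1
    rcases zmod_step _ _ ht.1 with ⟨h5, h6, h7⟩ | ⟨h5, h6⟩
    · unfold inc
      rw [if_pos h5, hph, h6, h7]
      simp only [if_true]
      push_cast
      ring
    · unfold inc
      rw [if_neg h5, h6]
      push_cast
      ring

/-! ### the classes -/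

theorem cls_FR_up : Cls FR fun F v => ¬ ∃ n, UpF F n v where
  mR := m_FR
  sR := FR_sF
  fR := fun _ _ _ _ h h' => fr_fun h h'
  mP := fun v => Measurable.not (Measurable.exists fun n => m_UpF n v)
  sP := fun g F v => by simp only [UpF_sF]

theorem cls_FR_dn : Cls FR fun F v => ¬ ∃ n, DnF F n v where
  mR := m_FR
  sR := FR_sF
  fR := fun _ _ _ _ h h' => fr_fun h h'
  mP := fun v => Measurable.not (Measurable.exists fun n => m_DnF n v)
  sP := fun g F v => by simp only [DnF_sF]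

theorem cls_IC : Cls IC fun _ _ => True where
  mR := m_IC
  sR := IC_sF
  fR := fun _ _ _ _ h h' => ic_fun h h'
  mP := fun _ => measurable_const
  sP := fun _ _ _ => Iff.rfl

theorem null_a {Y : Sy μ} [IsFiniteMeasure μ] {G : Set X} (hG : Good Y G) :
    μ (SS Y G FR (fun F v => ¬ ∃ n, UpF F n v) false) = 0 := by
  refine null_up hG cls_FR_up ?_
  intro F hF v l' hl' _ hP
  have h0 : ∃ u, Dn F u v := by
    by_contra hc
    exact hP ⟨0, hl'.1, hc⟩
  obtain ⟨u, hu⟩ := h0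
  obtain ⟨l, h1, h2⟩ := fr_up hF hu hl'
  exact ⟨u, l, hu, h1, h2, fun ⟨n, hn⟩ => hP ⟨n + 1, u, hu, hn⟩⟩

theorem null_b {Y : Sy μ} [IsFiniteMeasure μ] {G : Set X} (hG : Good Y G) :
    μ (SS Y G FR (fun F v => ¬ ∃ n, DnF F n v) true) = 0 := by
  refine null_dn hG cls_FR_dn ?_
  intro F hF u l hl _ hP
  have h0 : ∃ v, Dn F u v := by
    by_contra hc
    exact hP ⟨0, hl.1, hc⟩
  obtain ⟨v, hv⟩ := h0
  obtain ⟨l', h1, h2⟩ := fr_dn hF hv hl
  exact ⟨v, l', hv, h1, h2, fun ⟨n, hn⟩ => hP ⟨n + 1, v, hv, hn⟩⟩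

theorem null_c {Y : Sy μ} [IsFiniteMeasure μ] {G : Set X} (hG : Good Y G) :
    μ (SS Y G IC (fun _ _ => True) false) = 0 := by
  refine null_up hG cls_IC ?_
  intro F hF v l' hl' _ _
  obtain ⟨u, l, h1, h2, h3⟩ := ic_up hF hl'
  exact ⟨u, l, h1, h2, h3, trivial⟩

theorem null_c' {Y : Sy μ} [IsFiniteMeasure μ] {G : Set X} (hG : Good Y G) :
    μ (SS Y G IC (fun _ _ => True) true) = 0 := by
  refine null_dn hG cls_IC ?_
  intro F hF u l hl _ _
  obtain ⟨v, l', h1, h2, h3⟩ := ic_dn hF hl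
  exact ⟨v, l', h1, h2, h3, trivial⟩

/-- a null set at the origin is null everywhere -/
theorem ae_all (Y : Sy μ) {p : (ℤ × ℤ → Lab) → Prop} (h : ∀ᵐ x ∂μ, p (Y.FF x)) :
    ∀ᵐ x ∂μ, ∀ v, p (sF v (Y.FF x)) := by
  rw [ae_all_iff]
  intro v
  have h1 := (Y.mp v).quasiMeasurePreserving.ae h
  refine h1.mono fun x hx => ?_
  rwa [Y.FF_T] at hx

theorem ae_rule {G : Set X} (h0 : μ Gᶜ = 0) :
    ∀ᵐ x ∂μ, x ∈ G := by
  rw [ae_iff]
  exact h0

/-- Almost every finite run is closed on the side of its phase. -/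
theorem ae_fin1 {Y : Sy μ} [IsFiniteMeasure μ] {G : Set X} (hG : Good Y G) (h0 : μ Gᶜ = 0) :
    ∀ᵐ x ∂μ, ∀ v l, FR (Y.FF x) v l → Fin1 (Y.FF x) v := by
  have h1 : ∀ᵐ x ∂μ, ∀ l, FR (Y.FF x) 0 l → Fin1 (Y.FF x) 0 := by
    have ha : ∀ᵐ x ∂μ, x ∉ SS Y G FR (fun F v => ¬ ∃ n, UpF F n v) false :=
      measure_eq_zero_iff_ae_notMem.1 (null_a hG)
    have hb : ∀ᵐ x ∂μ, x ∉ SS Y G FR (fun F v => ¬ ∃ n, DnF F n v) true :=
      measure_eq_zero_iff_ae_notMem.1 (null_b hG)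
    filter_upwards [ha, hb, ae_rule h0] with x ha hb hx l hl
    cases hph : (Y.FF x 0).ph
    · refine Or.inl ⟨hph, ?_⟩
      by_contra hc
      exact ha ⟨hx, ⟨l, hl⟩, hph, hc⟩
    · refine Or.inr ⟨hph, ?_⟩
      by_contra hc
      exact hb ⟨hx, ⟨l, hl⟩, hph, hc⟩
  refine (ae_all Y (p := fun F => ∀ l, FR F 0 l → Fin1 F 0) h1).mono fun x hx v l hl => ?_
  have h2 := hx v l
  rw [FR_sF, Fin1_sF, zero_add] at h2
  exact h2 hl

theorem ae_noIC {Y : Sy μ} [IsFiniteMeasure μ] {G : Set X} (hG : Good Y G) (h0 : μ Gᶜ = 0) :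
    ∀ᵐ x ∂μ, ∀ v l, ¬ IC (Y.FF x) v l := by
  have h1 : ∀ᵐ x ∂μ, ∀ l, ¬ IC (Y.FF x) 0 l := by
    have ha : ∀ᵐ x ∂μ, x ∉ SS Y G IC (fun _ _ => True) false :=
      measure_eq_zero_iff_ae_notMem.1 (null_c hG)
    have hb : ∀ᵐ x ∂μ, x ∉ SS Y G IC (fun _ _ => True) true :=
      measure_eq_zero_iff_ae_notMem.1 (null_c' hG)
    filter_upwards [ha, hb, ae_rule h0] with x ha hb hx l hl
    cases hph : (Y.FF x 0).ph
    · exact ha ⟨hx, ⟨l, hl⟩, hph, trivial⟩
    · exact hb ⟨hx, ⟨l, hl⟩, hph, trivial⟩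
  refine (ae_all Y (p := fun F => ∀ l, ¬ IC F 0 l) h1).mono fun x hx v l hl => ?_
  have h2 := hx v l
  rw [IC_sF, zero_add] at h2
  exact h2 hl

theorem Sy.iter (Y : Sy μ) (n : ℕ) (x : X) : (Y.T (1, 0))^[n] x = Y.T ((n : ℤ), 0) x := by
  induction n with
  | zero => exact (Y.zero x).symm
  | succ n ih =>
    rw [Function.iterate_succ_apply', ih, ← Y.add]
    congr 1
    ext
    · simp [add_comm]
    · simp

/-- Infinite runs to the right are null. -/
theorem ae_noIR {Y : Sy μ} [IsFiniteMeasure μ] {G : Set X} (hG : Good Y G) (h0 : μ Gᶜ = 0) :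
    ∀ᵐ x ∂μ, ∀ v, ¬ IR (Y.FF x) v := by
  have h1 : ∀ᵐ x ∂μ, ¬ IR (Y.FF x) 0 := by
    have hm : MeasurableSet {x | IR (Y.FF x) 0} :=
      measurableSet_setOfPred.2 ((m_IR 0).comp Y.mFF)
    have hcons := (Y.mp (1, 0)).conservative
    have hrec := hcons.ae_mem_imp_frequently_image_mem hm.nullMeasurableSet
    filter_upwards [hrec, ae_noIC hG h0, ae_rule h0] with x hx hn hxG hIR
    have h2 := hx hIR
    rw [Filter.frequently_atTop] at h2
    obtain ⟨n, hn1, hn2⟩ := h2 1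
    rw [Y.iter] at hn2
    have hn3 : IR (Y.FF (Y.T ((n : ℤ), 0) x)) 0 := hn2
    rw [Y.FF_T, IR_sF, zero_add] at hn3
    have hn4 : IR (Y.FF x) (((0 : ℤ × ℤ).1 + n, (0 : ℤ × ℤ).2)) := by
      simpa using hn3
    obtain ⟨l, hl⟩ := ic_of (hG.rule x hxG) hIR (by omega) hn4
    exact hn 0 l hl
  refine (ae_all Y (p := fun F => ¬ IR F 0) h1).mono fun x hx v hv => ?_
  have h2 := hx v
  rw [IR_sF, zero_add] at h2
  exact h2 hv

/-- the mirror image of a system -/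
def Sy.mir (Y : Sy μ) : Sy μ where
  T g := Y.T (-g.1, g.2)
  zero x := by
    have : ((-(0 : ℤ × ℤ).1, (0 : ℤ × ℤ).2) : ℤ × ℤ) = 0 := by simp
    rw [this, Y.zero]
  add g h x := by
    rw [← Y.add]
    congr 1
    ext
    · simp [add_comm]
    · simp
  mp g := Y.mp _
  φ x := { Y.φ x with g := (Y.φ x).g', g' := (Y.φ x).g }
  hφ s := by
    have h1 : Measurable fun x => ({ Y.φ x with g := (Y.φ x).g', g' := (Y.φ x).g } : Lab) :=
      (Measurable.of_discrete (f := fun l : Lab => ({ l with g := l.g', g' := l.g } : Lab))).comp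
        Y.mφ
    exact h1 (measurableSet_singleton s)

theorem Sy.mir_FF (Y : Sy μ) (x : X) : Y.mir.FF x = SF.mir (Y.FF x) := rfl

theorem good_mir {Y : Sy μ} {G : Set X} (hG : Good Y G) : Good Y.mir G where
  meas := hG.meas
  inv g x hx := hG.inv _ x hx
  rule x hx v := mir_rule (hG.rule x hx) v

theorem ae_noIR' {Y : Sy μ} [IsFiniteMeasure μ] {G : Set X} (hG : Good Y G) (h0 : μ Gᶜ = 0) :
    ∀ᵐ x ∂μ, ∀ v, ¬ IR (SF.mir (Y.FF x)) v :=
  ae_noIR (good_mir hG) h0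

end SFM
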