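import Pool.Agent.Helper72.SFM.Chain

/-!
# SF, measure side 3: almost every cell is in finitely many finite runs
-/

set_option autoImplicit false

namespace SFM

open MeasureTheory SF

variable {X : Type} [MeasurableSpace X] {μ : Measure X}

theorem rel_add (F : ℤ × ℤ → Lab) (v : ℤ × ℤ) (m n : ℕ) :
    rel F v (m + n) = rel F v m + rel F (v.1 + m, v.2) n := by
  unfold rel
  rw [Finset.sum_range_add]
  congr 1
  refine Finset.sum_congr rfl fun j _ => ?_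
  have h1 : v.1 + ((m + j : ℕ) : ℤ) = v.1 + m + j := by push_cast; ring
  simp only [h1]

theorem rel_succ (F : ℤ × ℤ → Lab) (v : ℤ × ℤ) (m : ℕ) :
    rel F v (m + 1) = rel F v m + io (F (v.1 + m, v.2)) (F (v.1 + m + 1, v.2)) := by
  unfold rel
  rw [Finset.sum_range_succ]

theorem rel_zero (F : ℤ × ℤ → Lab) (v : ℤ × ℤ) : rel F v 0 = 0 := by
  simp [rel]

theorem io_LW {F : ℤ × ℤ → Lab} {v : ℤ × ℤ} (h : LW F v) :
    io (F (v.1 - 1, v.2)) (F v) = -1 := by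
  unfold io
  rw [h.1, h.2]
  simp

/-- a cell is own in one run only -/
theorem own_lt {F : ℤ × ℤ → Lab} {v : ℤ × ℤ} {i l i' l' : ℕ} (h : FR F (v.1 - i, v.2) l)
    (hr : rel F (v.1 - i, v.2) i = 0) (h' : FR F (v.1 - i', v.2) l')
    (hr' : rel F (v.1 - i', v.2) i' = 0) (hi' : i' ≤ l') : i' ≤ i := by
  by_contra hlt
  push Not at hlt
  obtain ⟨m, rfl⟩ : ∃ m, i' = m + 1 + i := ⟨i' - 1 - i, by omega⟩
  have h1 := rel_add F (v.1 - ((m + 1 + i : ℕ) : ℤ), v.2) (m + 1) i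
  have e1 : v.1 - ((m + 1 + i : ℕ) : ℤ) + ((m + 1 : ℕ) : ℤ) = v.1 - i := by push_cast; ring
  simp only [e1] at h1
  rw [hr', hr, add_zero] at h1
  have h2 := rel_succ F (v.1 - ((m + 1 + i : ℕ) : ℤ), v.2) m
  have e2 : v.1 - ((m + 1 + i : ℕ) : ℤ) + (m : ℤ) = v.1 - i - 1 := by push_cast; ring
  have e3 : v.1 - ((m + 1 + i : ℕ) : ℤ) + (m : ℤ) + 1 = v.1 - i := by push_cast; ring
  simp only [e3] at h2
  simp only [e2] at h2
  have h3 := io_LW h.1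
  simp only at h3
  rw [h3] at h2
  have h4 := h'.2.1 m (by omega)
  omega

theorem own_unique {F : ℤ × ℤ → Lab} {v : ℤ × ℤ} {i l i' l' : ℕ} (h : FR F (v.1 - i, v.2) l)
    (hr : rel F (v.1 - i, v.2) i = 0) (hi : i ≤ l) (h' : FR F (v.1 - i', v.2) l')
    (hr' : rel F (v.1 - i', v.2) i' = 0) (hi' : i' ≤ l') : i = i' ∧ l = l' := by
  have h1 : i = i' := le_antisymm (own_lt h' hr' h hr hi) (own_lt h hr h' hr' hi')
  subst h1
  exact ⟨rfl, fr_fun h h'⟩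

theorem own_sum (Y : Sy μ) (l : ℕ) :
    ∫⁻ x in {x | FR (Y.FF x) 0 l}, (own (Y.FF x) 0 l : ENNReal) ∂μ =
      ∑ i ∈ Finset.range (l + 1), μ {x | FR (Y.FF x) 0 l ∧ rel (Y.FF x) 0 i = 0} := by
  classical
  have hm : ∀ i, MeasurableSet {x | rel (Y.FF x) 0 i = 0} := fun i =>
    measurableSet_setOfPred.2 ((m_relp 0 i (· = 0)).comp Y.mFF)
  have hB : MeasurableSet {x | FR (Y.FF x) 0 l} :=
    measurableSet_setOfPred.2 ((m_FR 0 l).comp Y.mFF)
  have h1 : ∀ x, (own (Y.FF x) 0 l : ENNReal) =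
      ∑ i ∈ Finset.range (l + 1), Set.indicator {x | rel (Y.FF x) 0 i = 0} 1 x := by
    intro x
    unfold own
    rw [Finset.card_filter]
    push_cast
    refine Finset.sum_congr rfl fun i _ => ?_
    simp [Set.indicator_apply]
  simp only [h1]
  rw [lintegral_finsetSum _ fun i _ => measurable_one.indicator (hm i)]
  refine Finset.sum_congr rfl fun i _ => ?_
  rw [lintegral_indicator_one (hm i), Measure.restrict_apply (hm i)]
  congr 1
  ext x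
  simp only [Set.mem_inter_iff, Set.mem_ofPred_eq]
  exact And.comm

theorem len_le {Y : Sy μ} [IsFiniteMeasure μ] {G : Set X} (hG : Good Y G) (h0 : μ Gᶜ = 0)
    (l : ℕ) :
    ((l + 1 : ℕ) : ENNReal) * μ {x | FR (Y.FF x) 0 l} ≤
      260 * ∑ i ∈ Finset.range (l + 1), μ {x | FR (Y.FF x) 0 l ∧ rel (Y.FF x) 0 i = 0} := by
  have hB : MeasurableSet {x | FR (Y.FF x) 0 l} :=
    measurableSet_setOfPred.2 ((m_FR 0 l).comp Y.mFF)
  rw [← own_sum Y l]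
  have h1 : ((l + 1 : ℕ) : ENNReal) * μ {x | FR (Y.FF x) 0 l} =
      ∫⁻ _ in {x | FR (Y.FF x) 0 l}, ((l + 1 : ℕ) : ENNReal) ∂μ := by
    rw [setLIntegral_const]
  rw [h1, ← lintegral_const_mul' _ _ (by simp)]
  refine lintegral_mono_ae ?_
  rw [ae_restrict_iff' hB]
  filter_upwards [ae_fin1 hG h0, ae_rule h0] with x hx hxG hl
  have h2 := row_ineq (hG.rule x hxG) hl (hx 0 l hl)
  exact_mod_cast h2

theorem run_shift (Y : Sy μ) (i : ℕ) (p : (ℤ × ℤ → Lab) → Prop) (x : X) :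
    p (Y.FF (Y.T (-(i : ℤ), 0) x)) ↔ p (sF (-(i : ℤ), 0) (Y.FF x)) := by
  rw [Y.FF_T]

/-- Almost every cell is in finitely many finite runs. -/
theorem ae_finite {Y : Sy μ} [IsProbabilityMeasure μ] {G : Set X} (hG : Good Y G)
    (h0 : μ Gᶜ = 0) : ∀ᵐ x ∂μ, ∀ v : ℤ × ℤ,
      Set.Finite {p : Σ l : ℕ, Fin (l + 1) | FR (Y.FF x) (v.1 - ((p.2 : ℕ) : ℤ), v.2) p.1} := by
  have hB : ∀ l, MeasurableSet {x | FR (Y.FF x) 0 l} := fun l =>
    measurableSet_setOfPred.2 ((m_FR 0 l).comp Y.mFF)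
  have hO : ∀ (i l : ℕ), MeasurableSet {x | FR (Y.FF x) 0 l ∧ rel (Y.FF x) 0 i = 0} :=
    fun i l => measurableSet_setOfPred.2
      (((m_FR 0 l).and (m_relp 0 i (· = 0))).comp Y.mFF)
  -- the measures of the shifted sets
  have hA : ∀ (i l : ℕ), μ {x | FR (Y.FF x) (-(i : ℤ), 0) l} = μ {x | FR (Y.FF x) 0 l} := by
    intro i l
    rw [← (Y.mp (-(i : ℤ), 0)).measure_preimage (hB l).nullMeasurableSet]
    congr 1
    ext x
    simp only [Set.mem_ofPred_eq, Set.mem_preimage]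
    rw [Y.FF_T, FR_sF, zero_add]
  have hP : ∀ (i l : ℕ), μ {x | FR (Y.FF x) (-(i : ℤ), 0) l ∧ rel (Y.FF x) (-(i : ℤ), 0) i = 0} =
      μ {x | FR (Y.FF x) 0 l ∧ rel (Y.FF x) 0 i = 0} := by
    intro i l
    rw [← (Y.mp (-(i : ℤ), 0)).measure_preimage (hO i l).nullMeasurableSet]
    congr 1
    ext x
    simp only [Set.mem_ofPred_eq, Set.mem_preimage]
    rw [Y.FF_T, FR_sF, rel_sF, zero_add]
  have hPm : ∀ (i l : ℕ), MeasurableSet
      {x | FR (Y.FF x) (-(i : ℤ), 0) l ∧ rel (Y.FF x) (-(i : ℤ), 0) i = 0} :=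
    fun i l => measurableSet_setOfPred.2
      (((m_FR _ l).and (m_relp _ i (· = 0))).comp Y.mFF)
  have hsum : ∑' p : Σ l : ℕ, Fin (l + 1), μ {x | FR (Y.FF x) (-((p.2 : ℕ) : ℤ), 0) p.1} ≤
      260 := by
    have h1 : ∑' p : Σ l : ℕ, Fin (l + 1), μ {x | FR (Y.FF x) (-((p.2 : ℕ) : ℤ), 0) p.1} =
        ∑' l : ℕ, ((l + 1 : ℕ) : ENNReal) * μ {x | FR (Y.FF x) 0 l} := by
      rw [ENNReal.tsum_sigma']
      refine tsum_congr fun l => ?_
      simp only [hA]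
      rw [tsum_fintype, Finset.sum_const, Finset.card_univ, Fintype.card_fin, nsmul_eq_mul]
    have h2 : ∑' l : ℕ, ((l + 1 : ℕ) : ENNReal) * μ {x | FR (Y.FF x) 0 l} ≤
        ∑' l : ℕ, 260 * ∑ i ∈ Finset.range (l + 1),
          μ {x | FR (Y.FF x) 0 l ∧ rel (Y.FF x) 0 i = 0} :=
      ENNReal.tsum_le_tsum fun l => len_le hG h0 l
    have h3 : ∑' l : ℕ, ∑ i ∈ Finset.range (l + 1),
          μ {x | FR (Y.FF x) 0 l ∧ rel (Y.FF x) 0 i = 0} =
        ∑' p : Σ l : ℕ, Fin (l + 1), μ {x | FR (Y.FF x) (-((p.2 : ℕ) : ℤ), 0) p.1 ∧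
          rel (Y.FF x) (-((p.2 : ℕ) : ℤ), 0) p.2 = 0} := by
      rw [ENNReal.tsum_sigma']
      refine tsum_congr fun l => ?_
      simp only [hP]
      rw [tsum_fintype]
      exact Finset.sum_range (fun i => μ {x | FR (Y.FF x) 0 l ∧ rel (Y.FF x) 0 i = 0})
    have h4 : ∑' p : Σ l : ℕ, Fin (l + 1), μ {x | FR (Y.FF x) (-((p.2 : ℕ) : ℤ), 0) p.1 ∧
          rel (Y.FF x) (-((p.2 : ℕ) : ℤ), 0) p.2 = 0} ≤ 1 := by
      rw [← measure_iUnion]
      · exact prob_le_one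
      · intro p q hpq
        refine Set.disjoint_left.2 ?_
        rintro x ⟨hp1, hp2⟩ ⟨hq1, hq2⟩
        apply hpq
        have e0 : ∀ i : ℕ, ((-(i : ℤ), 0) : ℤ × ℤ) = ((0 : ℤ × ℤ).1 - i, (0 : ℤ × ℤ).2) := by
          intro i
          simp
        rw [e0] at hp1 hp2 hq1 hq2
        obtain ⟨h5, h6⟩ := own_unique hp1 hp2 (by omega) hq1 hq2 (by omega)
        obtain ⟨l, i⟩ := p
        obtain ⟨l', i'⟩ := q
        simp only at h6
        subst h6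
        simp only [Sigma.mk.injEq, heq_eq_eq, true_and]
        exact Fin.ext h5
      · exact fun p => hPm _ _
    rw [h1]
    refine h2.trans ?_
    rw [ENNReal.tsum_mul_left, h3]
    calc 260 * _ ≤ (260 : ENNReal) * 1 := by gcongr
      _ = 260 := mul_one _
  have hfin : ∀ᵐ x ∂μ, Set.Finite {p : Σ l : ℕ, Fin (l + 1) |
      x ∈ {x | FR (Y.FF x) (-((p.2 : ℕ) : ℤ), 0) p.1}} :=
    ae_finite_setOfPred_mem (ne_top_of_le_ne_top (by simp) hsum)
  have hfin' : ∀ᵐ x ∂μ, Set.Finite {p : Σ l : ℕ, Fin (l + 1) |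
      FR (Y.FF x) (-((p.2 : ℕ) : ℤ), 0) p.1} := hfin
  refine (ae_all Y (p := fun F => Set.Finite {p : Σ l : ℕ, Fin (l + 1) |
      FR F (-((p.2 : ℕ) : ℤ), 0) p.1}) hfin').mono fun x hx v => ?_
  refine (hx v).subset ?_
  intro p hp
  simp only [Set.mem_ofPred_eq] at hp ⊢
  rw [FR_sF]
  have e1 : ((-((p.2 : ℕ) : ℤ), 0) : ℤ × ℤ) + v = (v.1 - ((p.2 : ℕ) : ℤ), v.2) := by
    refine Prod.ext ?_ ?_
    · simp only [Prod.fst_add]
      ring
    · simp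
  rw [e1]
  exact hp

end SFM
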